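import Mathlib

set_option autoImplicit false

namespace Pool.Agent.Lib.MP_2e793b_nt.H89

open Finset

/-- The finite set of pairs (u,v) of natural numbers with u^2 + v^2 = n. -/
def reps (n : ℕ) : Finset (ℕ × ℕ) :=
  ((range (n + 1)) ×ˢ (range (n + 1))).filter (fun p => p.1 ^ 2 + p.2 ^ 2 = n)

theorem mem_reps {n : ℕ} {p : ℕ × ℕ} : p ∈ reps n ↔ p.1 ^ 2 + p.2 ^ 2 = n := by
  unfold reps
  simp only [mem_filter, mem_product, mem_range]
  constructor
  · rintro ⟨_, h⟩
    exact h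
  · intro h
    have h1 : p.1 ≤ p.1 ^ 2 := Nat.le_self_pow (by norm_num) p.1
    have h2 : p.2 ≤ p.2 ^ 2 := Nat.le_self_pow (by norm_num) p.2
    refine ⟨⟨?_, ?_⟩, h⟩ <;> omega

/-- The finite set of natural numbers u with u^2 = n (at most one element). -/
def sqs (n : ℕ) : Finset ℕ := (range (n + 1)).filter (fun u => u ^ 2 = n)

theorem mem_sqs {n u : ℕ} : u ∈ sqs n ↔ u ^ 2 = n := by
  unfold sqs
  simp only [mem_filter, mem_range]
  constructor
  · rintro ⟨_, h⟩
    exact h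
  · intro h
    have h1 : u ≤ u ^ 2 := Nat.le_self_pow (by norm_num) u
    exact ⟨by omega, h⟩

theorem card_sqs_le (n : ℕ) : (sqs n).card ≤ (reps n).card := by
  refine Finset.card_le_card_of_injOn (fun u => (u, 0)) ?_ ?_
  · intro u hu
    have := mem_sqs.1 (by simpa using hu)
    simp only [Finset.mem_coe, mem_reps]
    simpa using this
  · intro a _ b _ hab
    simpa using hab

/-- Regrouping a summable double family according to u^2 + v^2. -/
theorem hasSum_reps {F : ℕ × ℕ → ℝ} {s : ℝ} (h : HasSum F s) :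
    HasSum (fun m => ∑ p ∈ reps m, F p) s := by
  have h1 := h.tsum_fiberwise (fun p : ℕ × ℕ => p.1 ^ 2 + p.2 ^ 2)
  have h2 : (fun m => ∑ p ∈ reps m, F p) =
      (fun c : ℕ => ∑' b : (fun p : ℕ × ℕ => p.1 ^ 2 + p.2 ^ 2) ⁻¹' {c}, F b) := by
    funext m
    rw [← Finset.tsum_subtype]
    have hset : {x : ℕ × ℕ | x ∈ reps m} = (fun p : ℕ × ℕ => p.1 ^ 2 + p.2 ^ 2) ⁻¹' {m} := by
      ext p
      simp [mem_reps]
    exact tsum_congr_set_coe F hset
  rw [h2]
  exact h1

theorem hasSum_sqs {F : ℕ → ℝ} {s : ℝ} (h : HasSum F s) :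
    HasSum (fun m => ∑ p ∈ sqs m, F p) s := by
  have h1 := h.tsum_fiberwise (fun p : ℕ => p ^ 2)
  have h2 : (fun m => ∑ p ∈ sqs m, F p) =
      (fun c : ℕ => ∑' b : (fun p : ℕ => p ^ 2) ⁻¹' {c}, F b) := by
    funext m
    rw [← Finset.tsum_subtype]
    have hset : {x : ℕ | x ∈ sqs m} = (fun p : ℕ => p ^ 2) ⁻¹' {m} := by
      ext p
      simp [mem_sqs]
    exact tsum_congr_set_coe F hset
  rw [h2]
  exact h1

/-- An integer of absolute value less than one, given as a real number. -/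
theorem int_small {x : ℝ} (hx : ∃ k : ℤ, x = k) (h : |x| < 1) : x = 0 := by
  obtain ⟨k, rfl⟩ := hx
  have : |k| < 1 := by
    have : ((|k| : ℤ) : ℝ) < 1 := by simpa using h
    exact_mod_cast this
  have hk : k = 0 := Int.abs_lt_one_iff.1 this
  simp [hk]


section main

variable (b L K : ℕ) (c : ℕ → ℤ) (Q : ℕ → ℕ) (w : ℕ → ℝ) (A B : ℤ)

/-- The terms of the series. -/
noncomputable def term (u : ℕ) : ℝ := (c u : ℝ) / (b : ℝ) ^ (Q u)

/-- The coefficients of A E^2 + B E grouped by m = u^2 + v^2. -/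
noncomputable def grp (m : ℕ) : ℝ :=
  (A : ℝ) * ∑ p ∈ reps m, term b c Q p.1 * term b c Q p.2 + (B : ℝ) * ∑ u ∈ sqs m, term b c Q u

theorem grp_eq_zero {m : ℕ} (h : ∀ u v : ℕ, u ^ 2 + v ^ 2 ≠ m) : grp b c Q A B m = 0 := by
  have h1 : reps m = ∅ := by
    ext p
    simp [mem_reps, h p.1 p.2]
  have h2 : sqs m = ∅ := by
    ext u
    have := h u 0
    simp only [mem_sqs, Finset.notMem_empty, iff_false]
    simpa using this
  simp [grp, h1, h2]

theorem partial_int (hb : 2 ≤ b) (hL : 1 ≤ L) (hQ : ∀ u, c u ≠ 0 → L * Q u ≤ u ^ 2 + K)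
    (M : ℕ) (S : Finset ℕ) (hS : ∀ m ∈ S, (m + 2 * K) / L ≤ M) :
    ∃ k : ℤ, (b : ℝ) ^ M * ∑ m ∈ S, grp b c Q A B m = k := by
  have hb0 : (b : ℝ) ≠ 0 := by
    have : b ≠ 0 := by omega
    exact_mod_cast this
  -- each term is an integer after multiplication
  have key : ∀ (x : ℤ) (e : ℕ), (x ≠ 0 → e ≤ M) → ∃ k : ℤ, (b : ℝ) ^ M * ((x : ℝ) / (b : ℝ) ^ e) = k := by
    intro x e he
    by_cases hx : x = 0
    · exact ⟨0, by simp [hx]⟩
    · have h := he hx
      refine ⟨x * (b : ℤ) ^ (M - e), ?_⟩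
      have : (b : ℝ) ^ M = (b : ℝ) ^ (M - e) * (b : ℝ) ^ e := by
        rw [← pow_add]; congr 1; omega
      rw [this]
      push_cast
      field_simp
  have hG : ∀ m ∈ S, ∃ k : ℤ, (b : ℝ) ^ M * grp b c Q A B m = k := by
    intro m hm
    have hm' := hS m hm
    have h1 : ∃ k : ℤ, (b : ℝ) ^ M * ∑ p ∈ reps m, term b c Q p.1 * term b c Q p.2 = k := by
      have : ∀ p ∈ reps m, ∃ k : ℤ, (b : ℝ) ^ M * (term b c Q p.1 * term b c Q p.2) = k := by
        intro p hp
        have hp' := mem_reps.1 hp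
        have := key (c p.1 * c p.2) (Q p.1 + Q p.2) (by
          intro hne
          have hc1 : c p.1 ≠ 0 := fun h => hne (by simp [h])
          have hc2 : c p.2 ≠ 0 := fun h => hne (by simp [h])
          have e1 := hQ _ hc1
          have e2 := hQ _ hc2
          refine le_trans ?_ hm'
          rw [Nat.le_div_iff_mul_le (by omega)]
          have : L * (Q p.1 + Q p.2) ≤ m + 2 * K := by
            rw [mul_add]; omega
          linarith [mul_comm L (Q p.1 + Q p.2)])
        obtain ⟨k, hk⟩ := this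
        refine ⟨k, ?_⟩
        rw [← hk]
        unfold term
        push_cast
        rw [pow_add]
        field_simp
      choose! f hf using this
      refine ⟨∑ p ∈ reps m, f p, ?_⟩
      rw [Finset.mul_sum]
      push_cast
      exact Finset.sum_congr rfl hf
    have h2 : ∃ k : ℤ, (b : ℝ) ^ M * ∑ u ∈ sqs m, term b c Q u = k := by
      have : ∀ u ∈ sqs m, ∃ k : ℤ, (b : ℝ) ^ M * (term b c Q u) = k := by
        intro u hu
        have hu' := mem_sqs.1 hu
        exact key (c u) (Q u) (by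
          intro hne
          have e1 := hQ _ hne
          refine le_trans ?_ hm'
          rw [Nat.le_div_iff_mul_le (by omega)]
          linarith [mul_comm L (Q u)])
      choose! f hf using this
      refine ⟨∑ u ∈ sqs m, f u, ?_⟩
      rw [Finset.mul_sum]
      push_cast
      exact Finset.sum_congr rfl hf
    obtain ⟨k1, hk1⟩ := h1
    obtain ⟨k2, hk2⟩ := h2
    refine ⟨A * k1 + B * k2, ?_⟩
    unfold grp
    push_cast
    rw [← hk1, ← hk2]
    ring
  choose! f hf using hG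
  refine ⟨∑ m ∈ S, f m, ?_⟩
  rw [Finset.mul_sum]
  push_cast
  exact Finset.sum_congr rfl hf

variable {b L K c Q w A B}

theorem term_eq {lam : ℝ} (hw : ∀ u, term b c Q u = w u * Real.exp (-(lam * (u : ℝ) ^ 2))) :
    ∀ m, ∀ p ∈ reps m, term b c Q p.1 * term b c Q p.2 = w p.1 * w p.2 * Real.exp (-(lam * m)) := by
  intro m p hp
  have hp' := mem_reps.1 hp
  rw [hw, hw]
  have : Real.exp (-(lam * m)) = Real.exp (-(lam * (p.1 : ℝ) ^ 2)) * Real.exp (-(lam * (p.2 : ℝ) ^ 2)) := by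
    rw [← Real.exp_add]
    congr 1
    rw [← hp']
    push_cast
    ring
  rw [this]
  ring

theorem grp_eq {lam : ℝ} (hw : ∀ u, term b c Q u = w u * Real.exp (-(lam * (u : ℝ) ^ 2))) (m : ℕ) :
    grp b c Q A B m = ((A : ℝ) * ∑ p ∈ reps m, w p.1 * w p.2 + (B : ℝ) * ∑ u ∈ sqs m, w u)
      * Real.exp (-(lam * m)) := by
  unfold grp
  rw [Finset.sum_congr rfl (term_eq hw m)]
  have : ∀ u ∈ sqs m, term b c Q u = w u * Real.exp (-(lam * m)) := by
    intro u hu
    rw [hw]
    congr 3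
    rw [← mem_sqs.1 hu]
    push_cast
    ring
  rw [Finset.sum_congr rfl this, ← Finset.sum_mul, ← Finset.sum_mul]
  ring

theorem grp_bound {lam W : ℝ} (hW : ∀ u, |w u| ≤ W)
    (hw : ∀ u, term b c Q u = w u * Real.exp (-(lam * (u : ℝ) ^ 2))) (m : ℕ) :
    |grp b c Q A B m| ≤ (|(A : ℝ)| * W ^ 2 + |(B : ℝ)| * W) * (reps m).card * Real.exp (-(lam * m)) := by
  have hW0 : 0 ≤ W := le_trans (abs_nonneg _) (hW 0)
  rw [grp_eq hw, abs_mul, abs_of_pos (Real.exp_pos _)]
  refine mul_le_mul_of_nonneg_right ?_ (Real.exp_pos _).le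
  have h1 : |∑ p ∈ reps m, w p.1 * w p.2| ≤ (reps m).card * W ^ 2 := by
    refine (Finset.abs_sum_le_sum_abs _ _).trans ?_
    have : ∀ p ∈ reps m, |w p.1 * w p.2| ≤ W ^ 2 := by
      intro p _
      rw [abs_mul, sq]
      exact mul_le_mul (hW _) (hW _) (abs_nonneg _) hW0
    simpa using Finset.sum_le_card_nsmul _ _ _ this
  have h2 : |∑ u ∈ sqs m, w u| ≤ (reps m).card * W := by
    refine (Finset.abs_sum_le_sum_abs _ _).trans ?_
    have h3 : ∑ u ∈ sqs m, |w u| ≤ (sqs m).card * W := by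
      simpa using Finset.sum_le_card_nsmul _ _ _ (fun u (_ : u ∈ sqs m) => hW u)
    refine h3.trans (mul_le_mul_of_nonneg_right ?_ hW0)
    exact_mod_cast card_sqs_le m
  refine (abs_add_le _ _).trans ?_
  rw [abs_mul, abs_mul]
  have h4 := mul_le_mul_of_nonneg_left h1 (abs_nonneg (A : ℝ))
  have h5 := mul_le_mul_of_nonneg_left h2 (abs_nonneg (B : ℝ))
  nlinarith [h4, h5]

theorem summable_exp {lam : ℝ} (hl : 0 < lam) : Summable (fun j : ℕ => Real.exp (-(lam * (j : ℝ)))) := by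
  have : (fun j : ℕ => Real.exp (-(lam * (j : ℝ)))) = fun j : ℕ => Real.exp (-lam) ^ j := by
    funext j
    rw [← Real.exp_nat_mul]
    congr 1
    ring
  rw [this]
  exact summable_geometric_of_lt_one (Real.exp_pos _).le (by
    rw [Real.exp_lt_one_iff]; linarith)

theorem summable_term {lam W : ℝ} (hl : 0 < lam) (hW : ∀ u, |w u| ≤ W)
    (hw : ∀ u, term b c Q u = w u * Real.exp (-(lam * (u : ℝ) ^ 2))) :
    Summable (fun u => ‖term b c Q u‖) := by
  have hW0 : 0 ≤ W := le_trans (abs_nonneg _) (hW 0)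
  refine Summable.of_nonneg_of_le (fun _ => norm_nonneg _) ?_ ((summable_exp hl).mul_left W)
  intro u
  rw [hw, norm_mul, Real.norm_eq_abs, Real.norm_eq_abs, abs_of_pos (Real.exp_pos _)]
  refine mul_le_mul (hW u) ?_ (Real.exp_pos _).le hW0
  apply Real.exp_le_exp.2
  have h1 : (u : ℝ) ≤ (u : ℝ) ^ 2 := by
    have : u ≤ u ^ 2 := Nat.le_self_pow (by norm_num) u
    exact_mod_cast this
  nlinarith [mul_le_mul_of_nonneg_left h1 hl.le]

theorem hasSum_grp {lam W : ℝ} (hl : 0 < lam) (hW : ∀ u, |w u| ≤ W)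
    (hw : ∀ u, term b c Q u = w u * Real.exp (-(lam * (u : ℝ) ^ 2))) :
    HasSum (grp b c Q A B)
      ((A : ℝ) * (∑' u, term b c Q u) ^ 2 + (B : ℝ) * ∑' u, term b c Q u) := by
  have hs := summable_term hl hW hw
  have h1 : HasSum (fun p : ℕ × ℕ => term b c Q p.1 * term b c Q p.2) ((∑' u, term b c Q u) ^ 2) := by
    rw [sq, tsum_mul_tsum_of_summable_norm hs hs]
    exact (summable_mul_of_summable_norm hs hs).hasSum
  have h2 : HasSum (fun u : ℕ => term b c Q u) (∑' u, term b c Q u) := hs.of_norm.hasSum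
  exact ((hasSum_reps h1).mul_left (A : ℝ)).add ((hasSum_sqs h2).mul_left (B : ℝ))

/-- WINDOW THEOREM. -/
theorem window (hb : 2 ≤ b) (hL : 1 ≤ L) (hQ : ∀ u, c u ≠ 0 → L * Q u ≤ u ^ 2 + K)
    (W : ℝ) (hW : ∀ u, |w u| ≤ W)
    (hw : ∀ u, (c u : ℝ) / (b : ℝ) ^ (Q u) = w u * Real.exp (-(Real.log b / L * (u : ℝ) ^ 2)))
    (hA : A ≠ 0) (C : ℤ)
    (hE : (A : ℝ) * (∑' u, (c u : ℝ) / (b : ℝ) ^ (Q u)) ^ 2
      + (B : ℝ) * (∑' u, (c u : ℝ) / (b : ℝ) ^ (Q u)) + (C : ℝ) = 0) :
    ∃ H0 : ℕ, ∀ n H : ℕ, H0 ≤ H → H ≤ n →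
      (∀ u v : ℕ, u ^ 2 + v ^ 2 ≤ n + H → n ≤ u ^ 2 + v ^ 2 + H → u ^ 2 + v ^ 2 = n) →
      (∀ u : ℕ, u ^ 2 ≠ n) →
      (∀ h : ℕ, H < h → ((reps (n + h)).card : ℝ) ≤ Real.exp (Real.log b / (4 * L) * h)) →
      |∑ p ∈ reps n, w p.1 * w p.2| ≤ W ^ 2 * Real.exp (Real.log b / (4 * L) * H) →
      ∑ p ∈ reps n, w p.1 * w p.2 = 0 := by
  have hb1 : (1 : ℝ) < b := by exact_mod_cast (by omega : 1 < b)
  have hlogb : 0 < Real.log b := Real.log_pos hb1
  have hL0 : (0 : ℝ) < L := by exact_mod_cast (by omega : 0 < L)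
  set lam : ℝ := Real.log b / L with hlam
  have hl : 0 < lam := div_pos hlogb hL0
  have hdel : Real.log b / (4 * L) = lam / 4 := by rw [hlam]; field_simp
  rw [hdel]
  have hw' : ∀ u, term b c Q u = w u * Real.exp (-(lam * (u : ℝ) ^ 2)) := hw
  have hG : HasSum (grp b c Q A B) (-(C : ℝ)) := by
    have := hasSum_grp (A := A) (B := B) hl hW hw'
    have he : (A : ℝ) * (∑' u, term b c Q u) ^ 2 + (B : ℝ) * ∑' u, term b c Q u = -(C : ℝ) := by
      have h := hE
      simp only [term]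
      linarith
    rwa [he] at this
  have hW0 : 0 ≤ W := le_trans (abs_nonneg _) (hW 0)
  set D : ℝ := |(A : ℝ)| * W ^ 2 + |(B : ℝ)| * W with hD
  have hD0 : 0 ≤ D := by positivity
  -- summable comparison series
  have hs8 := summable_exp (lam := lam / 8) (by positivity)
  set S : ℝ := ∑' j : ℕ, Real.exp (-(lam / 8 * (j : ℝ))) with hS
  have hS0 : 0 ≤ S := tsum_nonneg (fun _ => (Real.exp_pos _).le)
  -- choice of H0
  have hlim : Filter.Tendsto (fun H : ℕ => D * S * Real.exp (-(lam / 8 * (H : ℝ)))) Filter.atTop (nhds 0) := by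
    have := (hs8.tendsto_atTop_zero).const_mul (D * S)
    simpa using this
  have hlim2 : Filter.Tendsto (fun H : ℕ => |(A : ℝ)| * W ^ 2 * Real.exp (lam / 2) * Real.exp (-(lam / 4 * (H : ℝ))))
      Filter.atTop (nhds 0) := by
    have := ((summable_exp (lam := lam / 4) (by positivity)).tendsto_atTop_zero).const_mul
      (|(A : ℝ)| * W ^ 2 * Real.exp (lam / 2))
    simpa using this
  have e1 := (hlim.eventually (gt_mem_nhds (show (0 : ℝ) < 1 by norm_num)))
  have e2 := (hlim2.eventually (gt_mem_nhds (show (0 : ℝ) < 1 by norm_num)))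
  obtain ⟨H0, hH0⟩ := Filter.eventually_atTop.1 (e1.and (e2.and (Filter.eventually_ge_atTop (4 * K + 2))))
  refine ⟨H0, ?_⟩
  intro n H hH hHn hwin hnsq hrep hR
  obtain ⟨hc1, hc2, hc3⟩ := hH0 H hH
  -- powers of b
  have hbexp : ∀ M : ℕ, (b : ℝ) ^ M = Real.exp (lam * (L * M : ℕ)) := by
    intro M
    have h0 : (b : ℝ) ^ M = Real.exp ((M : ℝ) * Real.log b) := by
      rw [Real.exp_nat_mul, Real.exp_log (by linarith)]
    rw [h0]
    congr 1
    push_cast
    rw [hlam]
    field_simp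
  -- the tail beyond n
  have hsG := hG.summable
  have htail : ∀ k : ℕ, ∑' j, grp b c Q A B (j + k) = -(C : ℝ) - ∑ m ∈ range k, grp b c Q A B m := by
    intro k
    have := hsG.sum_add_tsum_nat_add k
    rw [hG.tsum_eq] at this
    linarith
  have hzero1 : ∀ m, n < m → m ≤ n + H → grp b c Q A B m = 0 := by
    intro m h1 h2
    apply grp_eq_zero
    intro u v huv
    have := hwin u v (by omega) (by omega)
    omega
  have hzero2 : ∀ m, n ≤ m + H → m < n → grp b c Q A B m = 0 := by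
    intro m h1 h2
    apply grp_eq_zero
    intro u v huv
    have := hwin u v (by omega) (by omega)
    omega
  have hT : |∑' j, grp b c Q A B (j + (n + 1))| ≤ D * S * Real.exp (-(lam * n)) * Real.exp (-(5 * lam / 8 * H)) := by
    have hb' : ∀ j : ℕ, ‖grp b c Q A B (j + (n + 1))‖ ≤
        (D * Real.exp (-(lam * n)) * Real.exp (-(5 * lam / 8 * H))) * Real.exp (-(lam / 8 * (j : ℝ))) := by
      intro j
      by_cases hj : j + 1 ≤ H
      · rw [hzero1 _ (by omega) (by omega)]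
        simp only [norm_zero]
        positivity
      · push Not at hj
        rw [Real.norm_eq_abs]
        refine (grp_bound hW hw' _).trans ?_
        have h1 := hrep (j + 1) hj
        have h2 : j + (n + 1) = n + (j + 1) := by ring
        rw [h2]
        have h3 : D * ((reps (n + (j + 1))).card : ℝ) * Real.exp (-(lam * ((n + (j + 1) : ℕ) : ℝ))) ≤
            D * Real.exp (lam / 4 * ((j + 1 : ℕ) : ℝ)) * Real.exp (-(lam * ((n + (j + 1) : ℕ) : ℝ))) :=
          mul_le_mul_of_nonneg_right (mul_le_mul_of_nonneg_left h1 hD0) (Real.exp_pos _).le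
        refine h3.trans ?_
        rw [mul_assoc, ← Real.exp_add, mul_assoc D, ← Real.exp_add, mul_assoc D, ← Real.exp_add]
        refine mul_le_mul_of_nonneg_left (Real.exp_le_exp.2 ?_) hD0
        push_cast
        have h4 : (H : ℝ) ≤ j := by exact_mod_cast (by omega : H ≤ j)
        nlinarith [mul_le_mul_of_nonneg_left h4 hl.le]
    have hsum := hs8.mul_left (D * Real.exp (-(lam * n)) * Real.exp (-(5 * lam / 8 * H)))
    have := tsum_of_norm_bounded hsum.hasSum hb'
    rw [Real.norm_eq_abs, tsum_mul_left] at this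
    refine this.trans (le_of_eq ?_)
    rw [hS]
    ring
  -- first integer: M2
  set M2 : ℕ := (n + H / 2) / L with hM2
  obtain ⟨k2, hk2⟩ := partial_int b L K c Q A B hb hL hQ M2 (range (n + 1)) (by
    intro m hm
    rw [mem_range] at hm
    exact Nat.div_le_div_right (by omega))
  have hLM2 : L * M2 ≤ n + H / 2 := Nat.mul_div_le _ _
  have hT0 : ∑' j, grp b c Q A B (j + (n + 1)) = 0 := by
    have hint : ∃ k : ℤ, (b : ℝ) ^ M2 * ∑' j, grp b c Q A B (j + (n + 1)) = k := by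
      refine ⟨-C * (b : ℤ) ^ M2 - k2, ?_⟩
      rw [htail]
      push_cast
      rw [← hk2]
      ring
    have hsm : |(b : ℝ) ^ M2 * ∑' j, grp b c Q A B (j + (n + 1))| < 1 := by
      rw [abs_mul, abs_of_pos (by positivity)]
      refine lt_of_le_of_lt (mul_le_mul_of_nonneg_left hT (by positivity)) ?_
      refine lt_of_le_of_lt ?_ hc1
      rw [hbexp]
      have : Real.exp (lam * ((L * M2 : ℕ) : ℝ)) * (D * S * Real.exp (-(lam * n)) * Real.exp (-(5 * lam / 8 * H)))
          = D * S * Real.exp (lam * ((L * M2 : ℕ) : ℝ) + -(lam * n) + -(5 * lam / 8 * H)) := by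
        rw [Real.exp_add, Real.exp_add]; ring
      rw [this]
      refine mul_le_mul_of_nonneg_left (Real.exp_le_exp.2 ?_) (by positivity)
      have h5 : ((L * M2 : ℕ) : ℝ) ≤ n + H / 2 := by
        have h6 : ((L * M2 : ℕ) : ℝ) ≤ ((n + H / 2 : ℕ) : ℝ) := by exact_mod_cast hLM2
        have h7 : (((H / 2 : ℕ)) : ℝ) ≤ (H : ℝ) / 2 := Nat.cast_div_le
        push_cast at h6
        push_cast
        linarith
      nlinarith [mul_le_mul_of_nonneg_left h5 hl.le]
    have := int_small hint hsm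
    rcases mul_eq_zero.1 this with h | h
    · exact absurd h (by positivity)
    · exact h
  -- second integer: M1
  set M1 : ℕ := (n - H / 2) / L with hM1
  obtain ⟨k1, hk1⟩ := partial_int b L K c Q A B hb hL hQ M1 (range (n - H)) (by
    intro m hm
    rw [mem_range] at hm
    exact Nat.div_le_div_right (by omega))
  have hLM1 : L * M1 ≤ n - H / 2 := Nat.mul_div_le _ _
  have hrange : ∑ m ∈ range n, grp b c Q A B m = ∑ m ∈ range (n - H), grp b c Q A B m := by
    symm
    apply Finset.sum_subset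
    · intro m hm
      rw [mem_range] at hm ⊢
      omega
    · intro m hm hm'
      rw [mem_range] at hm hm'
      exact hzero2 m (by omega) hm
  have hGn : grp b c Q A B n = -(C : ℝ) - ∑ m ∈ range (n - H), grp b c Q A B m := by
    have := htail (n + 1)
    rw [hT0, Finset.sum_range_succ, hrange] at this
    linarith
  have hsq : sqs n = ∅ := by
    ext u
    simp [mem_sqs, hnsq u]
  have hGn2 : grp b c Q A B n = (A : ℝ) * (∑ p ∈ reps n, w p.1 * w p.2) * Real.exp (-(lam * n)) := by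
    rw [grp_eq hw', hsq]
    simp
  have hGn0 : grp b c Q A B n = 0 := by
    have hint : ∃ k : ℤ, (b : ℝ) ^ M1 * grp b c Q A B n = k := by
      refine ⟨-C * (b : ℤ) ^ M1 - k1, ?_⟩
      rw [hGn]
      push_cast
      rw [← hk1]
      ring
    have hsm : |(b : ℝ) ^ M1 * grp b c Q A B n| < 1 := by
      rw [abs_mul, abs_of_pos (by positivity), hGn2, abs_mul, abs_mul, abs_of_pos (Real.exp_pos _)]
      refine lt_of_le_of_lt ?_ hc2
      have h1 : (b : ℝ) ^ M1 * (|(A : ℝ)| * |∑ p ∈ reps n, w p.1 * w p.2| * Real.exp (-(lam * n))) ≤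
          (b : ℝ) ^ M1 * (|(A : ℝ)| * (W ^ 2 * Real.exp (lam / 4 * H)) * Real.exp (-(lam * n))) := by
        gcongr
      refine h1.trans ?_
      rw [hbexp]
      have : Real.exp (lam * ((L * M1 : ℕ) : ℝ)) * (|(A : ℝ)| * (W ^ 2 * Real.exp (lam / 4 * H)) * Real.exp (-(lam * n)))
          = |(A : ℝ)| * W ^ 2 * Real.exp (lam * ((L * M1 : ℕ) : ℝ) + lam / 4 * H + -(lam * n)) := by
        rw [Real.exp_add, Real.exp_add]; ring
      rw [this, mul_assoc (|(A : ℝ)| * W ^ 2), ← Real.exp_add]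
      refine mul_le_mul_of_nonneg_left (Real.exp_le_exp.2 ?_) (by positivity)
      have h5 : ((L * M1 : ℕ) : ℝ) ≤ n - (H - 1) / 2 := by
        have h6 : 2 * (L * M1) + H ≤ 2 * n + 1 := by omega
        have h7 : 2 * ((L * M1 : ℕ) : ℝ) + H ≤ 2 * n + 1 := by exact_mod_cast h6
        linarith
      nlinarith [mul_le_mul_of_nonneg_left h5 hl.le]
    have := int_small hint hsm
    rcases mul_eq_zero.1 this with h | h
    · exact absurd h (by positivity)
    · exact h
  rw [hGn2] at hGn0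
  have hA' : (A : ℝ) ≠ 0 := by exact_mod_cast hA
  rcases mul_eq_zero.1 hGn0 with h | h
  · rcases mul_eq_zero.1 h with h' | h'
    · exact absurd h' hA'
    · exact h'
  · exact absurd h (Real.exp_pos _).ne'

end main

/-- The canonical weights: w(U) = C(U) b^((U^2 mod T)/T). -/
noncomputable def wgt (b T : ℕ) (C : ℕ → ℤ) (U : ℕ) : ℝ :=
  (C U : ℝ) * (b : ℝ) ^ (((U ^ 2 % T : ℕ) : ℝ) / (T : ℝ))

/-- The canonical series: SUM over U >= 1 of C(U) b^(-floor(U^2/T)). -/
noncomputable def ser (b T : ℕ) (C : ℕ → ℤ) : ℝ :=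
  ∑' U : ℕ, if U = 0 then 0 else (C U : ℝ) / (b : ℝ) ^ (U ^ 2 / T)

theorem wgt_periodic (b T : ℕ) (C : ℕ → ℤ) (hC : ∀ U, C (U + T) = C U) (U : ℕ) :
    wgt b T C (U + T) = wgt b T C U := by
  unfold wgt
  have : (U + T) ^ 2 % T = U ^ 2 % T := by
    have : (U + T) ^ 2 = U ^ 2 + T * (2 * U + T) := by ring
    rw [this, Nat.add_mul_mod_self_left]
  rw [hC, this]

theorem wgt_bounded (b T : ℕ) (hT : 1 ≤ T) (C : ℕ → ℤ) (hC : ∀ U, C (U + T) = C U) :
    ∃ W : ℝ, ∀ U, |wgt b T C U| ≤ W := by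
  refine ⟨∑ U ∈ Finset.range T, |wgt b T C U|, ?_⟩
  intro U
  have hper : Function.Periodic (wgt b T C) T := wgt_periodic b T C hC
  have h1 : wgt b T C U = wgt b T C (U % T) := by
    exact (hper.map_mod_nat U).symm
  rw [h1]
  exact Finset.single_le_sum (f := fun U => |wgt b T C U|) (fun i _ => abs_nonneg _)
    (Finset.mem_range.2 (Nat.mod_lt _ (by omega)))

/-- WINDOW THEOREM for the canonical series. -/
theorem window_canon (b T : ℕ) (hb : 2 ≤ b) (hT : 1 ≤ T) (C : ℕ → ℤ) (hC : ∀ U, C (U + T) = C U)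
    (A B E : ℤ) (hA : A ≠ 0)
    (hE : (A : ℝ) * (ser b T C) ^ 2 + (B : ℝ) * (ser b T C) + (E : ℝ) = 0) :
    ∃ K : ℕ, ∀ n H : ℕ, K ≤ H → H ≤ n →
      (∀ u v : ℕ, u ^ 2 + v ^ 2 ≠ n → u ^ 2 + v ^ 2 + H < n ∨ n + H < u ^ 2 + v ^ 2) →
      (∀ u : ℕ, u ^ 2 ≠ n) →
      (∀ h : ℕ, H < h → (reps (n + h)).card ^ (4 * T) ≤ b ^ h) →
      (reps n).card ^ (4 * T) ≤ b ^ H →
      ∑ p ∈ reps n, wgt b T C p.1 * wgt b T C p.2 = 0 := by
  have hb1 : (1 : ℝ) < b := by exact_mod_cast (by omega : 1 < b)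
  have hb0 : (0 : ℝ) < b := by linarith
  have hT0 : (0 : ℝ) < T := by exact_mod_cast (by omega : 0 < T)
  obtain ⟨W, hW⟩ := wgt_bounded b T hT C hC
  set c : ℕ → ℤ := fun U => if U = 0 then 0 else C U with hc
  set w : ℕ → ℝ := fun U => if U = 0 then 0 else wgt b T C U with hwdef
  have hW' : ∀ u, |w u| ≤ W := by
    intro u
    rw [hwdef]
    by_cases hu : u = 0
    · simp only [hu, if_true, abs_zero]
      exact le_trans (abs_nonneg _) (hW 0)
    · simp only [hu, if_false]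
      exact hW u
  have hser : ser b T C = ∑' u, (c u : ℝ) / (b : ℝ) ^ (u ^ 2 / T) := by
    unfold ser
    refine tsum_congr (fun u => ?_)
    rw [hc]
    by_cases hu : u = 0 <;> simp [hu]
  have hw : ∀ u, (c u : ℝ) / (b : ℝ) ^ (u ^ 2 / T) = w u * Real.exp (-(Real.log b / T * (u : ℝ) ^ 2)) := by
    intro u
    rw [hc, hwdef]
    by_cases hu : u = 0
    · simp [hu]
    · simp only [hu, if_false, wgt]
      rw [mul_assoc, div_eq_mul_inv]
      congr 1
      rw [Real.rpow_def_of_pos hb0, ← Real.exp_add, ← Real.exp_log hb0, ← Real.exp_nat_mul, ← Real.exp_neg,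
        Real.exp_log hb0]
      congr 1
      have h1 : ((u : ℝ)) ^ 2 = (T : ℝ) * ((u ^ 2 / T : ℕ) : ℝ) + ((u ^ 2 % T : ℕ) : ℝ) := by
        have := Nat.div_add_mod (u ^ 2) T
        exact_mod_cast this.symm
      rw [h1]
      field_simp
      ring
  rw [hser] at hE
  obtain ⟨K, hK⟩ := window (b := b) (L := T) (K := 0) (c := c) (Q := fun u => u ^ 2 / T) (w := w)
    (A := A) (B := B) hb hT (fun u _ => by
      have := Nat.mul_div_le (u ^ 2) T
      simpa using this) W hW' hw hA E hE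
  have hpow : ∀ k h : ℕ, k ^ (4 * T) ≤ b ^ h → (k : ℝ) ≤ Real.exp (Real.log b / (4 * T) * h) := by
    intro k h hk
    have h1 : ((k : ℝ)) ^ (4 * T) ≤ (b : ℝ) ^ h := by exact_mod_cast hk
    have h2 : (Real.exp (Real.log b / (4 * T) * h)) ^ (4 * T) = (b : ℝ) ^ h := by
      rw [← Real.exp_nat_mul]
      have : ((4 * T : ℕ) : ℝ) * (Real.log b / (4 * T) * h) = h * Real.log b := by
        push_cast
        field_simp
      rw [this, Real.exp_nat_mul, Real.exp_log hb0]
    rw [← h2] at h1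
    exact le_of_pow_le_pow_left₀ (by omega) (Real.exp_pos _).le h1
  refine ⟨K, ?_⟩
  intro n H hKH hHn hwin hnsq hrep hR
  have hsum : ∑ p ∈ reps n, wgt b T C p.1 * wgt b T C p.2 = ∑ p ∈ reps n, w p.1 * w p.2 := by
    refine Finset.sum_congr rfl (fun p hp => ?_)
    have hp' := mem_reps.1 hp
    have h1 : p.1 ≠ 0 := by
      intro h0
      rw [h0] at hp'
      exact hnsq p.2 (by simpa using hp')
    have h2 : p.2 ≠ 0 := by
      intro h0
      rw [h0] at hp'
      exact hnsq p.1 (by simpa using hp')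
    simp only [hwdef, h1, h2, if_false]
  rw [hsum]
  refine hK n H hKH hHn ?_ hnsq ?_ ?_
  · intro u v h1 h2
    by_contra hne
    rcases hwin u v hne with h | h <;> omega
  · intro h hh
    exact hpow _ _ (hrep h hh)
  · have hW0 : 0 ≤ W := le_trans (abs_nonneg _) (hW 0)
    have h1 : |∑ p ∈ reps n, w p.1 * w p.2| ≤ (reps n).card * W ^ 2 := by
      refine (Finset.abs_sum_le_sum_abs _ _).trans ?_
      have : ∀ p ∈ reps n, |w p.1 * w p.2| ≤ W ^ 2 := by
        intro p _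
        rw [abs_mul, sq]
        exact mul_le_mul (hW' _) (hW' _) (abs_nonneg _) hW0
      simpa using Finset.sum_le_card_nsmul _ _ _ this
    refine h1.trans ?_
    rw [mul_comm]
    exact mul_le_mul_of_nonneg_left (hpow _ _ hR) (by positivity)

end Pool.Agent.Lib.MP_2e793b_nt.H89
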