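import Pool.Agent.Lib.MP_2e793b_nt.Iface
import Pool.Agent.Lib.MP_2e793b_nt.H89.Window

set_option autoImplicit false

namespace Pool.Agent.Lib.MP_2e793b_nt.H89

open Finset

theorem prs_eq (n : ℕ) : prs n = reps n := rfl

theorem windowRow : WindowStmt := by
  intro b T C A B E x hb hT hC hA hx hE
  have hb1 : (1 : ℝ) < b := by exact_mod_cast (by omega : 1 < b)
  have hb0 : (0 : ℝ) < b := by linarith
  have hT0 : (0 : ℝ) < T := by exact_mod_cast (by omega : 0 < T)
  obtain ⟨W, hW⟩ := wgt_bounded b T hT C hC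
  have hw : ∀ u, (C u : ℝ) / (b : ℝ) ^ (u ^ 2 / T) =
      wgt b T C u * Real.exp (-(Real.log b / T * (u : ℝ) ^ 2)) := by
    intro u
    simp only [wgt]
    rw [mul_assoc, div_eq_mul_inv]
    congr 1
    rw [Real.rpow_def_of_pos hb0, ← Real.exp_add, ← Real.exp_log hb0, ← Real.exp_nat_mul, ← Real.exp_neg,
      Real.exp_log hb0]
    congr 1
    have h1 : ((u : ℝ)) ^ 2 = (T : ℝ) * ((u ^ 2 / T : ℕ) : ℝ) + ((u ^ 2 % T : ℕ) : ℝ) := by
      have := Nat.div_add_mod (u ^ 2) T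
      exact_mod_cast this.symm
    rw [h1]
    field_simp
    ring
  have hE' : (A : ℝ) * (∑' u : ℕ, (C u : ℝ) / (b : ℝ) ^ (u ^ 2 / T)) ^ 2
      + (B : ℝ) * (∑' u : ℕ, (C u : ℝ) / (b : ℝ) ^ (u ^ 2 / T)) + (E : ℝ) = 0 := by
    rw [hx.tsum_eq]
    exact hE
  obtain ⟨K, hK⟩ := window (b := b) (L := T) (K := 0) (c := C) (Q := fun u => u ^ 2 / T)
    (w := wgt b T C) (A := A) (B := B) hb hT (fun u _ => by
      have := Nat.mul_div_le (u ^ 2) T
      simpa using this) W hW hw hA E hE'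
  have hpow : ∀ k h : ℕ, k ^ (4 * T) ≤ b ^ h → (k : ℝ) ≤ Real.exp (Real.log b / (4 * T) * h) := by
    intro k h hk
    have h1 : ((k : ℝ)) ^ (4 * T) ≤ (b : ℝ) ^ h := by exact_mod_cast hk
    have h2 : (Real.exp (Real.log b / (4 * T) * h)) ^ (4 * T) = (b : ℝ) ^ h := by
      rw [← Real.exp_nat_mul]
      have : ((4 * T : ℕ) : ℝ) * (Real.log b / (4 * T) * h) = h * Real.log b := by
        push_cast
        field_simp
      rw [this, Real.exp_nat_mul, Real.exp_log hb0]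
    rw [← h2] at h1
    exact le_of_pow_le_pow_left₀ (by omega) (Real.exp_pos _).le h1
  refine ⟨K, ?_⟩
  intro n H hKH hHn hwin hnsq hrep hR
  refine hK n H hKH hHn ?_ ?_ ?_ ?_
  · intro u v h1 h2
    by_contra hne
    rcases hwin u v hne with h | h <;> omega
  · intro u hu
    exact hnsq ⟨u, by rw [← hu, sq]⟩
  · intro h hh
    exact hpow _ _ (hrep h hh)
  · have hW0 : 0 ≤ W := le_trans (abs_nonneg _) (hW 0)
    have h1 : |∑ p ∈ reps n, wgt b T C p.1 * wgt b T C p.2| ≤ (reps n).card * W ^ 2 := by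
      refine (Finset.abs_sum_le_sum_abs _ _).trans ?_
      have : ∀ p ∈ reps n, |wgt b T C p.1 * wgt b T C p.2| ≤ W ^ 2 := by
        intro p _
        rw [abs_mul, sq]
        exact mul_le_mul (hW _) (hW _) (abs_nonneg _) hW0
      simpa using Finset.sum_le_card_nsmul _ _ _ this
    refine h1.trans ?_
    rw [mul_comm]
    exact mul_le_mul_of_nonneg_left (hpow _ _ hR) (by positivity)

end Pool.Agent.Lib.MP_2e793b_nt.H89
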